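import Pool.Agent.H23.BG.TargetsL
import Pool.Agent.H29.TC.FR

/-!
L_LG: Gauss sums with a quadratic phase in a finite ring.
-/

set_option autoImplicit false

open Finset

namespace Pool.Agent.H20.BG.LG

open Pool.Agent.H29.TC (MC hom_sum)

section

variable {R : Type} [CommRing R]

open scoped Classical in
/-- the linear sums -/
theorem lin_zero [Fintype R] (I : Ideal R) (η : R → ℂ) (hη : MC η)
    (hp : ∀ w : R, w ≠ 0 → ∃ r : R, IsUnit (1 + r * w) ∧ η (1 + r * w) ≠ 1)
    (b : R) (hbb : ∀ x ∈ I, ∀ y ∈ I, (x * b) * (y * b) = 0) (y : R) (hy : y ∈ I)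
    (hby : y * b ≠ 0) : ∑ z : I, η (1 + (z : R) * b) = 0 := by
  refine hom_sum (fun z : I => η (1 + (z : R) * b)) (fun x z => ?_) ?_
  · rw [← hη.mul]
    congr 1
    have := hbb x x.2 z z.2
    push_cast
    linear_combination -this
  · obtain ⟨r, -, hr⟩ := hp _ hby
    refine ⟨⟨r * y, I.mul_mem_left r hy⟩, ?_⟩
    simp only
    rw [mul_assoc]
    exact hr

open scoped Classical in
theorem norm_le_card [Fintype R] (I : Ideal R) (f : R → ℂ) (hf : ∀ x, ‖f x‖ ≤ 1) :
    ‖∑ z : I, f z‖ ≤ Nat.card I := by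
  refine (norm_sum_le _ _).trans ?_
  refine (Finset.sum_le_sum fun (z : I) _ => hf z).trans ?_
  rw [Finset.sum_const, Finset.card_univ, Nat.card_eq_fintype_card]
  simp

end

open scoped Classical in
theorem pf_LG : Pool.Agent.H23.BG.L_LG := by
  intro R _ _ I J η q hη hp h2 h3 hIJ hJI hq hm hIJ' b c hb
  have hnu : ¬ IsUnit c → ∀ z ∈ I, z ^ 2 * c = 0 := by
    intro hc z hz
    have := hm c hc z hz z hz
    linear_combination this
  refine ⟨fun hc => ?_, fun hc => ?_, fun hc hbJ => ?_⟩
  · -- the quadratic case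
    obtain ⟨v, hv⟩ := (h2.mul hc).exists_right_inv
    set T : R → ℂ := fun z => η (1 + z * b + z ^ 2 * c) with hT
    have hnil : ∀ z ∈ I, IsUnit (1 + z * b + z ^ 2 * c) := by
      intro z hz
      have h5 : IsNilpotent (z * (b + z * c)) := by
        refine ⟨3, ?_⟩
        have := h3 z hz z hz z hz
        linear_combination ((b + z * c) ^ 3) * this
      have h6 := h5.isUnit_one_add
      have h7 : 1 + z * (b + z * c) = 1 + z * b + z ^ 2 * c := by ring
      rwa [h7] at h6
    have hAB : ∀ z ∈ I, ∀ h ∈ I, (z * b + z ^ 2 * c) * (h * b + h ^ 2 * c) = 0 := by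
      intro z hz h hh
      have a1 := h3 z hz h hh b hb
      have a2 := h3 z hz z hz h hh
      linear_combination (b + h * c + z * c) * a1 + (c ^ 2 * h) * a2
    have hAC : ∀ z ∈ I, ∀ h ∈ I, (z * b + z ^ 2 * c) * (z * (2 * c * h)) = 0 := by
      intro z hz h hh
      have a1 := h3 z hz z hz b hb
      have a2 := h3 z hz z hz z hz
      linear_combination (2 * c * h) * a1 + (2 * c ^ 2 * h) * a2
    have hBC : ∀ z ∈ I, ∀ h ∈ I, (h * b + h ^ 2 * c) * (z * (2 * c * h)) = 0 := by
      intro z hz h hh
      have a1 := h3 h hh h hh b hb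
      have a2 := h3 h hh h hh h hh
      linear_combination (2 * c * z) * a1 + (2 * c ^ 2 * z) * a2
    have hmul : ∀ z ∈ I, ∀ h ∈ I, T (z + h) * (starRingEnd ℂ) (T z) =
        η (1 + h * b + h ^ 2 * c) * η (1 + z * (2 * c * h)) := by
      intro z hz h hh
      have e1 : 1 + (z + h) * b + (z + h) ^ 2 * c =
          (1 + z * b + z ^ 2 * c) * ((1 + h * b + h ^ 2 * c) * (1 + z * (2 * c * h))) := by
        linear_combination (-(1 + z * (2 * c * h))) * hAB z hz h hh - hAC z hz h hh -
          hBC z hz h hh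
      have e2 := hη.conj_mul (hnil z hz)
      simp only [hT]
      rw [e1, hη.mul, hη.mul]
      linear_combination (η (1 + h * b + h ^ 2 * c) * η (1 + z * (2 * c * h))) * e2
    have hin : ∀ h ∈ I, η (1 + h * b + h ^ 2 * c) * ∑ z : I, η (1 + (z : R) * (2 * c * h)) =
        if h ∈ J then (Nat.card I : ℂ) else 0 := by
      intro h hh
      split_ifs with hJ
      · have e1 : h * b = 0 := by rw [mul_comm]; exact hIJ b hb h hJ
        have e2 : h ^ 2 = 0 := by rw [pow_two]; exact hIJ h hh h hJ
        have e3 : ∀ z : I, (1 : R) + (z : R) * (2 * c * h) = 1 := by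
          intro z
          have := hIJ z z.2 h hJ
          linear_combination (2 * c) * this
        simp only [e1, e2, e3, zero_mul, add_zero, hη.one, one_mul]
        rw [Finset.sum_const, Finset.card_univ, Nat.card_eq_fintype_card]
        simp
      · have h5 : ∃ y ∈ I, h * y ≠ 0 := by
          by_contra hcon
          push Not at hcon
          exact hJ (hIJ' h hh fun y hy => hcon y hy)
        obtain ⟨y, hy, hby⟩ := h5
        have h6 := lin_zero I η hη hp (2 * c * h) (fun x hx w hw => by
          have := h3 x hx w hw h hh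
          linear_combination (4 * c ^ 2 * h) * this) (v * y) (I.mul_mem_left v hy) (by
            intro h7
            apply hby
            linear_combination h7 - (h * y) * hv)
        rw [h6, mul_zero]
    have hsq : ((‖∑ z : I, T z‖ ^ 2 : ℝ) : ℂ) = (Nat.card I : ℂ) * (Nat.card J : ℂ) := by
      rw [← Complex.normSq_eq_norm_sq, Complex.normSq_eq_conj_mul_self, map_sum,
        Finset.sum_mul_sum]
      have e1 : ∀ z : I, ∑ z' : I, (starRingEnd ℂ) (T z) * T z' =
          ∑ h : I, η (1 + (h : R) * b + (h : R) ^ 2 * c) * η (1 + (z : R) * (2 * c * h)) := by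
        intro z
        rw [← Equiv.sum_comp (Equiv.addLeft z) (fun z' : I => (starRingEnd ℂ) (T z) * T z')]
        refine Finset.sum_congr rfl fun h _ => ?_
        rw [← hmul z z.2 h h.2]
        simp only [Equiv.coe_addLeft, Submodule.coe_add]
        ring
      rw [Finset.sum_congr rfl fun z _ => e1 z, Finset.sum_comm]
      have e2 : ∀ h : I, ∑ z : I, η (1 + (h : R) * b + (h : R) ^ 2 * c) *
          η (1 + (z : R) * (2 * c * h)) = if (h : R) ∈ J then (Nat.card I : ℂ) else 0 := by
        intro h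
        rw [← Finset.mul_sum]
        exact hin h h.2
      rw [Finset.sum_congr rfl fun h _ => e2 h, ← Finset.sum_filter, Finset.sum_const,
        nsmul_eq_mul, mul_comm]
      congr 2
      rw [Nat.card_eq_fintype_card, ← Fintype.card_subtype]
      refine Fintype.card_congr ⟨fun h => ⟨h.1.1, h.2⟩, fun h => ⟨⟨h.1, hJI h.2⟩, h.2⟩,
        fun _ => rfl, fun _ => rfl⟩
    have hsq' : ‖∑ z : I, T z‖ ^ 2 = (Nat.card J * Real.sqrt q) ^ 2 := by
      have e1 : (‖∑ z : I, T z‖ ^ 2 : ℝ) = (Nat.card I : ℝ) * (Nat.card J : ℝ) := by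
        exact_mod_cast hsq
      rw [e1, hq, mul_pow, Real.sq_sqrt (Nat.cast_nonneg q)]
      push_cast
      ring
    have hnn : (0 : ℝ) ≤ Nat.card J * Real.sqrt q := by positivity
    exact (abs_le_of_sq_le_sq' hsq'.le hnn).2
  · exact norm_le_card I (fun z => η (1 + z * b + z ^ 2 * c)) (fun x => hη.norm_le _)
  · have h5 : ∃ y ∈ I, y * b ≠ 0 := by
      by_contra hcon
      push Not at hcon
      refine hbJ (hIJ' b hb fun y hy => ?_)
      rw [mul_comm]
      exact hcon y hy
    obtain ⟨y, hy, hby⟩ := h5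
    have h6 := lin_zero I η hη hp b (fun x hx y hy => by
      have := h3 x hx y hy b hb
      linear_combination b * this) y hy hby
    rw [← h6]
    refine Finset.sum_congr rfl fun z _ => ?_
    rw [hnu hc z z.2, add_zero]

end Pool.Agent.H20.BG.LG
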