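import Pool.Agent.H23.BG.TargetsL
import Pool.Agent.H29.TC.FR

/-!
L_LS: the complete sum in a finite ring is supported on the stationary points.
-/

set_option autoImplicit false

open Finset

namespace Pool.Agent.H20.BG.LS

open Pool.Agent.H29.TC (MC unit_add_nil hom_sum)
open Pool.Agent.H23.BG (c4 al be ga)

section

variable {R : Type} [CommRing R]

/-- the summand -/
noncomputable def FF (η : R → ℂ) (a : Fin 4 → R) (y : R) : ℂ :=
  η (y + a 0) * η (y + a 1) * (starRingEnd ℂ) (η (y + a 2)) * (starRingEnd ℂ) (η (y + a 3))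

theorem FF_norm (η : R → ℂ) (hη : MC η) (a : Fin 4 → R) (y : R) : ‖FF η a y‖ ≤ 1 := by
  have h := hη.norm_le
  simp only [FF, norm_mul, RCLike.norm_conj]
  have h0 := h (y + a 0)
  have h1 := h (y + a 1)
  have h2 := h (y + a 2)
  have h3 := h (y + a 3)
  have e1 := mul_le_one₀ h0 (norm_nonneg _) h1
  have e2 := mul_le_one₀ e1 (norm_nonneg _) h2
  exact mul_le_one₀ e2 (norm_nonneg _) h3

theorem shift (η : R → ℂ) (hη : MC η) (a u : Fin 4 → R) (y k : R)
    (hu : ∀ i, (y + a i) * u i = 1) (hk : k * k = 0) :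
    FF η a (y + k) = FF η a y * η (1 + k * (u 0 + u 1 - u 2 - u 3)) := by
  have hkn : ∀ r : R, IsNilpotent (k * r) := fun r => ⟨2, by
    rw [mul_pow, pow_two, hk, zero_mul]⟩
  have hun : ∀ r : R, IsUnit (1 + k * r) := fun r => (hkn r).isUnit_one_add
  have h1 : ∀ i, η (y + k + a i) = η (y + a i) * η (1 + k * u i) := by
    intro i
    rw [← hη.mul]
    congr 1
    linear_combination (-k) * hu i
  have h2 : η (1 + k * u 0) * η (1 + k * u 1) =
      η (1 + k * (u 0 + u 1 - u 2 - u 3)) * (η (1 + k * u 2) * η (1 + k * u 3)) := by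
    rw [← hη.mul, ← hη.mul, ← hη.mul]
    congr 1
    linear_combination (u 0 * u 1 - u 2 * u 3 - (u 0 + u 1 - u 2 - u 3) * (u 2 + u 3) -
      k * (u 0 + u 1 - u 2 - u 3) * u 2 * u 3) * hk
  have h3 := hη.conj_mul (hun (u 2))
  have h4 := hη.conj_mul (hun (u 3))
  unfold FF
  rw [h1, h1, h1, h1, map_mul, map_mul]
  calc η (y + a 0) * η (1 + k * u 0) * (η (y + a 1) * η (1 + k * u 1)) *
        ((starRingEnd ℂ) (η (y + a 2)) * (starRingEnd ℂ) (η (1 + k * u 2))) *
        ((starRingEnd ℂ) (η (y + a 3)) * (starRingEnd ℂ) (η (1 + k * u 3)))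
      = (η (y + a 0) * η (y + a 1) * (starRingEnd ℂ) (η (y + a 2)) *
          (starRingEnd ℂ) (η (y + a 3))) * (η (1 + k * u 0) * η (1 + k * u 1)) *
          ((starRingEnd ℂ) (η (1 + k * u 2)) * (starRingEnd ℂ) (η (1 + k * u 3))) := by ring
    _ = (η (y + a 0) * η (y + a 1) * (starRingEnd ℂ) (η (y + a 2)) *
          (starRingEnd ℂ) (η (y + a 3))) * η (1 + k * (u 0 + u 1 - u 2 - u 3)) *
          (((starRingEnd ℂ) (η (1 + k * u 2)) * η (1 + k * u 2)) *
            ((starRingEnd ℂ) (η (1 + k * u 3)) * η (1 + k * u 3))) := by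
          rw [h2]; ring
    _ = _ := by rw [h3, h4]; ring

/-- the stationary points -/
def St (I : Ideal R) (a : Fin 4 → R) (y : R) : Prop :=
  (∀ i, IsUnit (y + a i)) ∧ ∀ k ∈ I, k * (al a * y ^ 2 + 2 * be a * y + ga a) = 0

theorem poly_eq (a u : Fin 4 → R) (y : R) (hu : ∀ i, (y + a i) * u i = 1) :
    al a * y ^ 2 + 2 * be a * y + ga a = -((u 0 + u 1 - u 2 - u 3) *
      ((y + a 0) * (y + a 1) * (y + a 2) * (y + a 3))) := by
  unfold al be ga
  linear_combination ((y + a 1) * (y + a 2) * (y + a 3)) * hu 0 +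
    ((y + a 0) * (y + a 2) * (y + a 3)) * hu 1 - ((y + a 0) * (y + a 1) * (y + a 3)) * hu 2 -
    ((y + a 0) * (y + a 1) * (y + a 2)) * hu 3

open scoped Classical in
theorem main [Fintype R] (I : Ideal R) (η : R → ℂ) (hη : MC η)
    (hp : ∀ w : R, w ≠ 0 → ∃ r : R, IsUnit (1 + r * w) ∧ η (1 + r * w) ≠ 1)
    (hI : ∀ x ∈ I, ∀ y ∈ I, x * y = 0) (a : Fin 4 → R) :
    ‖c4 η a‖ ≤ Nat.card {y : R // St I a y} := by
  have hcard : (0 : ℝ) < Fintype.card I := by
    exact_mod_cast Fintype.card_pos
  -- averaging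
  have h1 : (Fintype.card I : ℂ) * ∑ y, FF η a y = ∑ y, ∑ k : I, FF η a (y + k) := by
    rw [Finset.sum_comm]
    have h2 : ∀ k : I, ∑ y, FF η a (y + k) = ∑ y, FF η a y := fun k =>
      Equiv.sum_comp (Equiv.addRight (k : R)) (FF η a)
    simp only [h2, Finset.sum_const, Finset.card_univ, nsmul_eq_mul]
  -- the inner sums
  have h2 : ∀ y, ‖∑ k : I, FF η a (y + k)‖ ≤ if St I a y then (Fintype.card I : ℝ) else 0 := by
    intro y
    by_cases hy : ∀ i, IsUnit (y + a i)
    · have hu' : ∀ i, ∃ u, (y + a i) * u = 1 := fun i => (hy i).exists_right_inv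
      choose u hu using hu'
      have h3 : ∀ k : I, FF η a (y + k) =
          FF η a y * η (1 + (k : R) * (u 0 + u 1 - u 2 - u 3)) := fun k =>
        shift η hη a u y k hu (hI k k.2 k k.2)
      simp only [h3]
      rw [← Finset.mul_sum]
      split_ifs with hs
      · rw [norm_mul]
        have e1 : ‖∑ k : I, η (1 + (k : R) * (u 0 + u 1 - u 2 - u 3))‖ ≤ Fintype.card I := by
          refine (norm_sum_le _ _).trans ?_
          refine (Finset.sum_le_sum fun k _ => hη.norm_le _).trans ?_
          simp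
        calc ‖FF η a y‖ * ‖∑ k : I, η (1 + (k : R) * (u 0 + u 1 - u 2 - u 3))‖
            ≤ 1 * (Fintype.card I : ℝ) :=
              mul_le_mul (FF_norm η hη a y) e1 (norm_nonneg _) zero_le_one
          _ = _ := one_mul _
      · have h4 : ∑ k : I, η (1 + (k : R) * (u 0 + u 1 - u 2 - u 3)) = 0 := by
          refine hom_sum (fun k : I => η (1 + (k : R) * (u 0 + u 1 - u 2 - u 3)))
            (fun x z => ?_) ?_
          · rw [← hη.mul]
            congr 1
            have := hI x x.2 z z.2
            push_cast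
            linear_combination (-(u 0 + u 1 - u 2 - u 3) ^ 2) * this
          · by_contra hc
            push Not at hc
            refine hs ⟨hy, fun k hk => ?_⟩
            have h5 : k * (u 0 + u 1 - u 2 - u 3) = 0 := by
              by_contra hw
              obtain ⟨r, -, hr⟩ := hp _ hw
              refine hr ?_
              have h6 := hc ⟨r * k, I.mul_mem_left r hk⟩
              rw [← mul_assoc]
              exact h6
            rw [poly_eq a u y hu]
            linear_combination (-((y + a 0) * (y + a 1) * (y + a 2) * (y + a 3))) * h5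
        rw [h4, mul_zero, norm_zero]
    · have h3 : ∀ k : I, FF η a (y + k) = 0 := by
        intro k
        push Not at hy
        obtain ⟨i, hi⟩ := hy
        have hkn : IsNilpotent (k : R) := ⟨2, by rw [pow_two]; exact hI k k.2 k k.2⟩
        have h4 : ¬ IsUnit (y + (k : R) + a i) := by
          intro h5
          apply hi
          have h6 := unit_add_nil h5 hkn.neg
          have h7 : y + (k : R) + a i + -(k : R) = y + a i := by ring
          rwa [h7] at h6
        have h5 : η (y + (k : R) + a i) = 0 := hη.zero _ h4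
        unfold FF
        fin_cases i
        · simp only [Fin.zero_eta] at h5
          rw [h5]
          ring
        · simp only [Fin.mk_one] at h5
          rw [h5]
          ring
        · simp only [Fin.reduceFinMk] at h5
          rw [h5, map_zero]
          ring
        · simp only [Fin.reduceFinMk] at h5
          rw [h5, map_zero]
          ring
      simp only [h3, Finset.sum_const_zero, norm_zero]
      split_ifs
      · exact hcard.le
      · exact le_refl 0
  have hnc : Nat.card {y : R // St I a y} = (Finset.univ.filter fun y => St I a y).card := by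
    rw [Nat.card_eq_fintype_card, Fintype.card_subtype]
  rw [hnc]
  have h3 : (Fintype.card I : ℝ) * ‖∑ y, FF η a y‖ ≤
      (Fintype.card I : ℝ) * ((Finset.univ.filter fun y => St I a y).card : ℝ) := by
    calc (Fintype.card I : ℝ) * ‖∑ y, FF η a y‖ = ‖(Fintype.card I : ℂ) * ∑ y, FF η a y‖ := by
          rw [norm_mul, Complex.norm_natCast]
      _ = ‖∑ y, ∑ k : I, FF η a (y + k)‖ := by rw [h1]
      _ ≤ ∑ y, ‖∑ k : I, FF η a (y + k)‖ := norm_sum_le _ _
      _ ≤ ∑ y, if St I a y then (Fintype.card I : ℝ) else 0 :=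
          Finset.sum_le_sum fun y _ => h2 y
      _ = _ := by
          rw [← Finset.sum_filter, Finset.sum_const, nsmul_eq_mul, mul_comm]
  exact le_of_mul_le_mul_left h3 hcard

end

theorem pf_LS : Pool.Agent.H23.BG.L_LS := by
  intro R _ _ I η hη hp hI a
  exact main I η hη hp hI a

end Pool.Agent.H20.BG.LS
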