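import Pool.Agent.H20.BG.LG
import Pool.Agent.H20.BG.LS

/-!
L_LO: the complete sum modulo an odd power of an odd prime.
-/

set_option autoImplicit false

open Finset NumberField

namespace Pool.Agent.H20.BG.LO

open Pool.Agent.H29.TC (MC unit_add_nil hom_sum LC)
open Pool.Agent.H23.BG (c4 al be ga nrt)
open Pool.Agent.H23.LC
open Pool.Agent.H20.BG.LS (FF FF_norm poly_eq)

section

variable {R : Type} [CommRing R]

theorem shift3 (η : R → ℂ) (hη : MC η) (a u : Fin 4 → R) (y z : R)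
    (hu : ∀ i, (y + a i) * u i = 1) (hz : z * z * z = 0) :
    FF η a (y + z) = FF η a y * η (1 + z * (u 0 + u 1 - u 2 - u 3) +
      z ^ 2 * (u 0 * u 1 - u 2 * u 3 - (u 0 + u 1 - u 2 - u 3) * (u 2 + u 3))) := by
  have hkn : ∀ r : R, IsNilpotent (z * r) := fun r => ⟨3, by
    linear_combination (r ^ 3) * hz⟩
  have hun : ∀ r : R, IsUnit (1 + z * r) := fun r => (hkn r).isUnit_one_add
  have h1 : ∀ i, η (y + z + a i) = η (y + a i) * η (1 + z * u i) := by
    intro i
    rw [← hη.mul]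
    congr 1
    linear_combination (-z) * hu i
  have h2 : η (1 + z * u 0) * η (1 + z * u 1) =
      η (1 + z * (u 0 + u 1 - u 2 - u 3) +
        z ^ 2 * (u 0 * u 1 - u 2 * u 3 - (u 0 + u 1 - u 2 - u 3) * (u 2 + u 3))) *
        (η (1 + z * u 2) * η (1 + z * u 3)) := by
    rw [← hη.mul, ← hη.mul, ← hη.mul]
    congr 1
    linear_combination (-((u 0 * u 1 - u 2 * u 3 - (u 0 + u 1 - u 2 - u 3) * (u 2 + u 3)) *
      (u 2 + u 3) + (u 0 + u 1 - u 2 - u 3) * (u 2 * u 3)) - z *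
      (u 0 * u 1 - u 2 * u 3 - (u 0 + u 1 - u 2 - u 3) * (u 2 + u 3)) * (u 2 * u 3)) * hz
  have h3 := hη.conj_mul (hun (u 2))
  have h4 := hη.conj_mul (hun (u 3))
  unfold FF
  rw [h1, h1, h1, h1, map_mul, map_mul]
  generalize η (1 + z * (u 0 + u 1 - u 2 - u 3) +
        z ^ 2 * (u 0 * u 1 - u 2 * u 3 - (u 0 + u 1 - u 2 - u 3) * (u 2 + u 3))) = e at h2 ⊢
  calc η (y + a 0) * η (1 + z * u 0) * (η (y + a 1) * η (1 + z * u 1)) *
        ((starRingEnd ℂ) (η (y + a 2)) * (starRingEnd ℂ) (η (1 + z * u 2))) *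
        ((starRingEnd ℂ) (η (y + a 3)) * (starRingEnd ℂ) (η (1 + z * u 3)))
      = (η (y + a 0) * η (y + a 1) * (starRingEnd ℂ) (η (y + a 2)) *
          (starRingEnd ℂ) (η (y + a 3))) * (η (1 + z * u 0) * η (1 + z * u 1)) *
          ((starRingEnd ℂ) (η (1 + z * u 2)) * (starRingEnd ℂ) (η (1 + z * u 3))) := by ring
    _ = (η (y + a 0) * η (y + a 1) * (starRingEnd ℂ) (η (y + a 2)) *
          (starRingEnd ℂ) (η (y + a 3))) * e *
          (((starRingEnd ℂ) (η (1 + z * u 2)) * η (1 + z * u 2)) *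
            ((starRingEnd ℂ) (η (1 + z * u 3)) * η (1 + z * u 3))) := by
          rw [h2]; ring
    _ = _ := by rw [h3, h4]; ring

open scoped Classical in
/-- the inner sum vanishes if `L` is not in `I` -/
theorem lin_J [Fintype R] (I J : Ideal R) (η : R → ℂ) (hη : MC η)
    (hp : ∀ w : R, w ≠ 0 → ∃ r : R, IsUnit (1 + r * w) ∧ η (1 + r * w) ≠ 1)
    (hIJ : ∀ x ∈ I, ∀ y ∈ J, x * y = 0) (hJI : J ≤ I)
    (hLJ : ∀ x, (∀ y ∈ J, y * x = 0) → x ∈ I) (b c : R) (hb : b ∉ I) :
    ∑ z : I, η (1 + (z : R) * b + (z : R) ^ 2 * c) = 0 := by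
  have h1 : ∃ j ∈ J, j * b ≠ 0 := by
    by_contra hc
    push Not at hc
    exact hb (hLJ b hc)
  obtain ⟨j0, hj0, hw⟩ := h1
  obtain ⟨r, -, hr⟩ := hp _ hw
  have hj : r * j0 ∈ J := J.mul_mem_left r hj0
  rw [← mul_assoc] at hr
  generalize r * j0 = j at hj hr
  set T : I → ℂ := fun z => η (1 + (z : R) * b + (z : R) ^ 2 * c) with hT
  have h2 : ∀ z : I, T (z + ⟨j, hJI hj⟩) = η (1 + j * b) * T z := by
    intro z
    simp only [hT]
    rw [← hη.mul]
    congr 1
    have e1 := hIJ z z.2 j hj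
    have e2 := hIJ j (hJI hj) j hj
    push_cast
    linear_combination (2 * c) * e1 + c * e2 - (b * b + (z : R) * c * b) * e1
  have h3 : ∑ z : I, T z = η (1 + j * b) * ∑ z : I, T z := by
    rw [Finset.mul_sum, ← Equiv.sum_comp (Equiv.addRight (⟨j, hJI hj⟩ : I)) T]
    exact Finset.sum_congr rfl fun z _ => h2 z
  have h4 : (1 - η (1 + j * b)) * ∑ z : I, T z = 0 := by
    rw [sub_mul, one_mul, ← h3, sub_self]
  rcases mul_eq_zero.1 h4 with h5 | h5
  · exact absurd (sub_eq_zero.1 h5).symm hr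
  · exact h5

open scoped Classical in
theorem odd_ring [Fintype R] (I J : Ideal R) (η : R → ℂ) (q : ℕ) (hη : MC η)
    (hp : ∀ w : R, w ≠ 0 → ∃ r : R, IsUnit (1 + r * w) ∧ η (1 + r * w) ≠ 1)
    (h2 : IsUnit (2 : R)) (h3 : ∀ x ∈ I, ∀ y ∈ I, ∀ z ∈ I, x * y * z = 0)
    (hIJ : ∀ x ∈ I, ∀ y ∈ J, x * y = 0) (hJI : J ≤ I) (hq : Nat.card I = q * Nat.card J)
    (hm : ∀ m : R, ¬ IsUnit m → ∀ x ∈ I, ∀ y ∈ I, m * (x * y) = 0)
    (hIJ' : ∀ x ∈ I, (∀ y ∈ I, x * y = 0) → x ∈ J)
    (hLJ : ∀ x, (∀ y ∈ J, y * x = 0) → x ∈ I) (a : Fin 4 → R) :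
    (Nat.card I : ℝ) * ‖c4 η a‖ ≤
      (Nat.card J * Real.sqrt q) * Nat.card {y : R // al a * y ^ 2 + 2 * be a * y + ga a ∈ I} +
      Nat.card I * Nat.card {y : R // al a * y ^ 2 + 2 * be a * y + ga a ∈ J} := by
  have hLG := LG.pf_LG R I J η q hη hp h2 h3 hIJ hJI hq hm hIJ'
  set P : R → R := fun y => al a * y ^ 2 + 2 * be a * y + ga a with hP
  have h1 : (Nat.card I : ℂ) * ∑ y, FF η a y = ∑ y, ∑ k : I, FF η a (y + k) := by
    rw [Finset.sum_comm]
    have h2 : ∀ k : I, ∑ y, FF η a (y + k) = ∑ y, FF η a y := fun k =>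
      Equiv.sum_comp (Equiv.addRight (k : R)) (FF η a)
    simp only [h2, Finset.sum_const, Finset.card_univ, nsmul_eq_mul, Nat.card_eq_fintype_card]
  have hA : (0 : ℝ) ≤ Nat.card J * Real.sqrt q := by positivity
  have hB : (0 : ℝ) ≤ (Nat.card I : ℝ) := by positivity
  have key : ∀ y, ‖∑ k : I, FF η a (y + k)‖ ≤
      (if P y ∈ I then (Nat.card J * Real.sqrt q : ℝ) else 0) +
      (if P y ∈ J then (Nat.card I : ℝ) else 0) := by
    intro y
    have hnn : (0 : ℝ) ≤ (if P y ∈ I then (Nat.card J * Real.sqrt q : ℝ) else 0) +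
      (if P y ∈ J then (Nat.card I : ℝ) else 0) := by
      split_ifs <;> linarith
    by_cases hy : ∀ i, IsUnit (y + a i)
    · have hu' : ∀ i, ∃ u, (y + a i) * u = 1 := fun i => (hy i).exists_right_inv
      choose u hu using hu'
      set L : R := u 0 + u 1 - u 2 - u 3 with hL
      set L2 : R := u 0 * u 1 - u 2 * u 3 - L * (u 2 + u 3) with hL2
      have h4 : ∀ k : I, FF η a (y + k) =
          FF η a y * η (1 + (k : R) * L + (k : R) ^ 2 * L2) := fun k =>
        shift3 η hη a u y k hu (h3 k k.2 k k.2 k k.2)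
      have h5 : ‖∑ k : I, FF η a (y + k)‖ ≤
          ‖∑ k : I, η (1 + (k : R) * L + (k : R) ^ 2 * L2)‖ := by
        simp only [h4]
        rw [← Finset.mul_sum, norm_mul]
        exact mul_le_of_le_one_left (norm_nonneg _) (FF_norm η hη a y)
      have hPL : P y = -(L * ((y + a 0) * (y + a 1) * (y + a 2) * (y + a 3))) :=
        poly_eq a u y hu
      have hPI : L ∈ I → P y ∈ I := by
        intro h
        rw [hPL]
        exact I.neg_mem (I.mul_mem_right _ h)
      have hPJ : L ∈ J → P y ∈ J := by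
        intro h
        rw [hPL]
        exact J.neg_mem (J.mul_mem_right _ h)
      refine h5.trans ?_
      by_cases hLI : L ∈ I
      · obtain ⟨g1, g2, g3⟩ := hLG L L2 hLI
        by_cases hc : IsUnit L2
        · refine (g1 hc).trans ?_
          rw [if_pos (hPI hLI)]
          have : (0 : ℝ) ≤ (if P y ∈ J then (Nat.card I : ℝ) else 0) := by
            split_ifs <;> linarith
          linarith
        · by_cases hLJ' : L ∈ J
          · refine (g2 hc).trans ?_
            rw [if_pos (hPJ hLJ'), if_pos (hPI hLI)]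
            linarith
          · rw [g3 hc hLJ', norm_zero]
            exact hnn
      · rw [lin_J I J η hη hp hIJ hJI hLJ L L2 hLI, norm_zero]
        exact hnn
    · have h4 : ∀ k : I, FF η a (y + k) = 0 := by
        intro k
        push Not at hy
        obtain ⟨i, hi⟩ := hy
        have hkn : IsNilpotent (k : R) := ⟨3, by
          have := h3 k k.2 k k.2 k k.2
          linear_combination this⟩
        have h4 : ¬ IsUnit (y + (k : R) + a i) := by
          intro h5
          apply hi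
          have h6 := unit_add_nil h5 hkn.neg
          have h7 : y + (k : R) + a i + -(k : R) = y + a i := by ring
          rwa [h7] at h6
        have h5 : η (y + (k : R) + a i) = 0 := hη.zero _ h4
        unfold FF
        fin_cases i
        · simp only [Fin.zero_eta] at h5
          rw [h5]
          ring
        · simp only [Fin.mk_one] at h5
          rw [h5]
          ring
        · simp only [Fin.reduceFinMk] at h5
          rw [h5, map_zero]
          ring
        · simp only [Fin.reduceFinMk] at h5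
          rw [h5, map_zero]
          ring
      simp only [h4, Finset.sum_const_zero, norm_zero]
      exact hnn
  have hcount : ∀ (Q : Ideal R) (B : ℝ), ∑ y : R, (if P y ∈ Q then B else 0) =
      B * Nat.card {y : R // P y ∈ Q} := by
    intro Q B
    rw [← Finset.sum_filter, Finset.sum_const, nsmul_eq_mul, mul_comm,
      Nat.card_eq_fintype_card, Fintype.card_subtype]
  calc (Nat.card I : ℝ) * ‖c4 η a‖ = ‖(Nat.card I : ℂ) * ∑ y, FF η a y‖ := by
        rw [norm_mul, Complex.norm_natCast]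
        rfl
    _ = ‖∑ y, ∑ k : I, FF η a (y + k)‖ := by rw [h1]
    _ ≤ ∑ y, ‖∑ k : I, FF η a (y + k)‖ := norm_sum_le _ _
    _ ≤ ∑ y, ((if P y ∈ I then (Nat.card J * Real.sqrt q : ℝ) else 0) +
      (if P y ∈ J then (Nat.card I : ℝ) else 0)) := Finset.sum_le_sum fun y _ => key y
    _ = _ := by
        rw [Finset.sum_add_distrib, hcount, hcount]

end

section

variable {A : Type} [CommRing A]

/-- counting along the projection `A / f → A / g` -/
theorem card_fib (f g : Ideal A) (h : f ≤ g) (Z : (A ⧸ g) → Prop) :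
    Nat.card {y : A ⧸ f // Z (Ideal.Quotient.factor h y)} =
      Nat.card (g.map (Ideal.Quotient.mk f)) * Nat.card {u : A ⧸ g // Z u} := by
  classical
  have hsur := Ideal.Quotient.factor_surjective h
  choose s hs using hsur
  have hker : ∀ x : A ⧸ f, Ideal.Quotient.factor h x = 0 ↔ x ∈ g.map (Ideal.Quotient.mk f) := by
    intro x
    obtain ⟨x, rfl⟩ := Ideal.Quotient.mk_surjective x
    rw [Ideal.Quotient.factor_mk, Ideal.mem_quotient_iff_mem h, Ideal.Quotient.eq_zero_iff_mem]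
  rw [← Nat.card_prod]
  refine Nat.card_congr ⟨fun y => (⟨y.1 - s (Ideal.Quotient.factor h y.1), ?_⟩,
    ⟨Ideal.Quotient.factor h y.1, y.2⟩), fun p => ⟨s p.2.1 + p.1.1, ?_⟩, ?_, ?_⟩
  · rw [← hker, map_sub, hs, sub_self]
  · rw [map_add, hs, (hker _).2 p.1.2, add_zero]
    exact p.2.2
  · rintro ⟨y, hy⟩
    simp
  · rintro ⟨⟨k, hk⟩, ⟨u, hu⟩⟩
    have h0 : Ideal.Quotient.factor h k = 0 := (hker _).2 hk
    simp only [Prod.mk.injEq, Subtype.mk.injEq, map_add, hs, h0, add_zero, and_true]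
    ring

end

section

variable {K : Type} [Field K] [NumberField K]

theorem card_quot (P : Ideal (𝓞 K)) (n : ℕ) :
    Nat.card (𝓞 K ⧸ P ^ n) = (Ideal.absNorm P) ^ n := by
  rw [← map_pow, Ideal.absNorm_apply, Submodule.cardQuot_apply]

theorem card_map (P : Ideal (𝓞 K)) (hP : P ≠ ⊥) (n k : ℕ) (hk : k ≤ n) :
    Nat.card ((P ^ k).map (Ideal.Quotient.mk (P ^ n))) = (Ideal.absNorm P) ^ (n - k) := by
  have h1 := card_fib (P ^ n) (P ^ k) (Ideal.pow_le_pow_right hk) (fun _ => True)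
  have h2 : ∀ m : ℕ, Nat.card {y : 𝓞 K ⧸ P ^ m // True} = (Ideal.absNorm P) ^ m := by
    intro m
    rw [← card_quot]
    exact Nat.card_congr (Equiv.subtypeUnivEquiv fun _ => trivial)
  rw [h2, h2] at h1
  have h3 : 0 < Ideal.absNorm P := Nat.pos_of_ne_zero fun h => hP (Ideal.absNorm_eq_zero_iff.1 h)
  have h4 : (Ideal.absNorm P) ^ n = (Ideal.absNorm P) ^ (n - k) * (Ideal.absNorm P) ^ k := by
    rw [← pow_add]
    congr 1
    omega
  rw [h4] at h1
  exact (Nat.eq_of_mul_eq_mul_right (pow_pos h3 k) h1).symm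

/-- cancellation of powers -/
theorem cancel (P : Ideal (𝓞 K)) (hP : P ≠ ⊥) (i j : ℕ) (x : 𝓞 K)
    (h : ∀ y ∈ P ^ i, x * y ∈ P ^ (i + j)) : x ∈ P ^ j := by
  have h1 : Ideal.span {x} * P ^ i ≤ P ^ j * P ^ i := by
    rw [← pow_add, add_comm j i, Ideal.span_singleton_mul_le_iff]
    exact h
  have h2 : P ^ j * P ^ i ∣ Ideal.span {x} * P ^ i := Ideal.dvd_iff_le.2 h1
  have h3 : P ^ j ∣ Ideal.span {x} := (mul_dvd_mul_iff_right (pow_ne_zero i hP)).1 h2
  exact Ideal.dvd_span_singleton.1 h3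

end

theorem LO_aux (K : Type) [Field K] [NumberField K] (P : Ideal (𝓞 K)) (hPp : P.IsPrime)
    (hP : P ≠ ⊥) (h2 : (2 : 𝓞 K) ∉ P) (r : ℕ) (hr : 1 ≤ r) (n : ℕ) (hn : n = 2 * r + 1)
    [Fintype (𝓞 K ⧸ P ^ n)] (η : 𝓞 K ⧸ P ^ n → ℂ) (hη : LC (P ^ n) η) (a : Fin 4 → 𝓞 K) :
    ‖c4 η (fun i => Ideal.Quotient.mk (P ^ n) (a i))‖ ≤
      (Ideal.absNorm P : ℝ) ^ r * (Real.sqrt (Ideal.absNorm P : ℝ) *
        nrt K P r (al a) (be a) (ga a) + nrt K P (r + 1) (al a) (be a) (ga a)) := by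
  classical
  have : P.IsMaximal := hPp.isMaximal hP
  have hn0 : n ≠ 0 := by omega
  set mk := Ideal.Quotient.mk (P ^ n) with hmk
  have hle : ∀ k, k ≤ n → P ^ n ≤ P ^ k := fun k hk => Ideal.pow_le_pow_right hk
  have hmem : ∀ k, k ≤ n → ∀ x : 𝓞 K, mk x ∈ (P ^ k).map mk ↔ x ∈ P ^ k := fun k hk x =>
    Ideal.mem_quotient_iff_mem (hle k hk)
  have hz : ∀ x : 𝓞 K, mk x = 0 ↔ x ∈ P ^ n := fun x => Ideal.Quotient.eq_zero_iff_mem
  have hr1 : r ≤ n := by omega
  have hr2 : r + 1 ≤ n := by omega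
  have hsur : ∀ x : 𝓞 K ⧸ P ^ n, ∃ x' : 𝓞 K, mk x' = x := Ideal.Quotient.mk_surjective
  have hmulm : ∀ i j : ℕ, n ≤ i + j → ∀ x ∈ P ^ i, ∀ y ∈ P ^ j, x * y ∈ P ^ n := by
    intro i j hij x hx y hy
    refine Ideal.pow_le_pow_right hij ?_
    rw [pow_add]
    exact Ideal.mul_mem_mul hx hy
  have key := odd_ring ((P ^ r).map mk) ((P ^ (r + 1)).map mk) η (Ideal.absNorm P) hη.mc hη.prim
    (by
      have : mk 2 = 2 := map_ofNat mk 2
      rw [← this]
      exact Ideal.Quotient.isUnit_mk_pow_of_notMem P h2)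
    (by
      intro x hx y hy z hz'
      obtain ⟨x, rfl⟩ := hsur x
      obtain ⟨y, rfl⟩ := hsur y
      obtain ⟨z, rfl⟩ := hsur z
      rw [hmem r hr1] at hx hy hz'
      rw [← map_mul, ← map_mul, hz]
      refine hmulm (r + r) r (by omega) (x * y) ?_ z hz'
      rw [pow_add]
      exact Ideal.mul_mem_mul hx hy)
    (by
      intro x hx y hy
      obtain ⟨x, rfl⟩ := hsur x
      obtain ⟨y, rfl⟩ := hsur y
      rw [hmem r hr1] at hx
      rw [hmem (r + 1) hr2] at hy
      rw [← map_mul, hz]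
      exact hmulm r (r + 1) (by omega) x hx y hy)
    (Ideal.map_mono (Ideal.pow_le_pow_right (Nat.le_succ r)))
    (by
      rw [card_map P hP n r hr1, card_map P hP n (r + 1) hr2, ← pow_succ']
      congr 1
      omega)
    (by
      intro m hm x hx y hy
      obtain ⟨m, rfl⟩ := hsur m
      obtain ⟨x, rfl⟩ := hsur x
      obtain ⟨y, rfl⟩ := hsur y
      rw [hmem r hr1] at hx hy
      have hmP : m ∈ P := by
        by_contra hc
        exact hm (Ideal.Quotient.isUnit_mk_pow_of_notMem P hc)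
      rw [← map_mul, ← map_mul, hz]
      refine hmulm 1 (r + r) (by omega) m (by rwa [pow_one]) (x * y) ?_
      rw [pow_add]
      exact Ideal.mul_mem_mul hx hy)
    (by
      intro x hx hxy
      obtain ⟨x, rfl⟩ := hsur x
      rw [hmem (r + 1) hr2]
      refine cancel P hP r (r + 1) x fun y hy => ?_
      have h5 := hxy (mk y) ((hmem r hr1 y).2 hy)
      rw [← map_mul, hz] at h5
      have h6 : r + (r + 1) = n := by omega
      rw [h6]
      exact h5)
    (by
      intro x hxy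
      obtain ⟨x, rfl⟩ := hsur x
      rw [hmem r hr1]
      refine cancel P hP (r + 1) r x fun y hy => ?_
      have h5 := hxy (mk y) ((hmem (r + 1) hr2 y).2 hy)
      rw [← map_mul, hz] at h5
      have h6 : r + 1 + r = n := by omega
      rw [h6, mul_comm]
      exact h5)
    (fun i => mk (a i))
  have hal : al (fun i => mk (a i)) = mk (al a) := by
    simp only [al, map_add, map_sub]
  have hbe : be (fun i => mk (a i)) = mk (be a) := by
    simp only [be, map_sub, map_mul]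
  have hga : ga (fun i => mk (a i)) = mk (ga a) := by
    simp only [ga, map_sub, map_mul, map_add]
  have hcnt : ∀ k, k ≤ n → Nat.card {y : 𝓞 K ⧸ P ^ n // al (fun i => mk (a i)) * y ^ 2 +
      2 * be (fun i => mk (a i)) * y + ga (fun i => mk (a i)) ∈ (P ^ k).map mk} =
      (Ideal.absNorm P) ^ (n - k) * nrt K P k (al a) (be a) (ga a) := by
    intro k hk
    rw [← card_map P hP n k hk]
    unfold nrt
    rw [← card_fib (P ^ n) (P ^ k) (hle k hk) (fun u => Ideal.Quotient.mk (P ^ k) (al a) * u ^ 2 +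
      2 * Ideal.Quotient.mk (P ^ k) (be a) * u + Ideal.Quotient.mk (P ^ k) (ga a) = 0)]
    refine Nat.card_congr (Equiv.subtypeEquivRight fun y => ?_)
    obtain ⟨y, rfl⟩ := hsur y
    have e2 : mk 2 = 2 := map_ofNat mk 2
    have e3 : Ideal.Quotient.mk (P ^ k) 2 = 2 := map_ofNat _ 2
    rw [hal, hbe, hga, ← e2, ← map_pow, ← map_mul, ← map_mul, ← map_mul, ← map_add, ← map_add,
      hmem k hk, hmk, Ideal.Quotient.factor_mk, ← e3, ← map_pow, ← map_mul, ← map_mul, ← map_mul,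
      ← map_add, ← map_add, Ideal.Quotient.eq_zero_iff_mem]
  rw [hcnt r hr1, hcnt (r + 1) hr2, card_map P hP n r hr1, card_map P hP n (r + 1) hr2] at key
  have hq0 : (0 : ℝ) < (Ideal.absNorm P : ℝ) := by
    exact_mod_cast Nat.pos_of_ne_zero fun h => hP (Ideal.absNorm_eq_zero_iff.1 h)
  have e1 : n - r = r + 1 := by omega
  have e2 : n - (r + 1) = r := by omega
  rw [e1, e2] at key
  push_cast at key
  have hqr : (0 : ℝ) < (Ideal.absNorm P : ℝ) ^ (r + 1) := pow_pos hq0 _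
  refine le_of_mul_le_mul_left (key.trans (le_of_eq ?_)) hqr
  ring

theorem pf_LO : Pool.Agent.H23.BG.L_LO := by
  intro K _ _ P hPp hP h2 r hr _ η hη a
  exact LO_aux K P hPp hP h2 r hr (2 * r + 1) rfl η hη a

end Pool.Agent.H20.BG.LO
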